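import Pool.Agent.W169.HF.Lap1
import Pool.Agent.W169.HF.DefsL

/-! HF-LLEFT: the part of the half-line integral to the left of `a` is small. -/

set_option autoImplicit false

open Complex MeasureTheory Filter Topology Set

namespace Pool.Agent.W12.HF

open Pool.Agent.W169.HF

theorem norm_ww (t : ℝ) (g : ℝ → ℂ) (x u : ℝ) :
    ‖ww t g x u‖ = Real.exp (x * u / (2 * t) - u ^ 2 / (4 * t)) * ‖g u‖ := by
  rw [ww, norm_mul, Complex.norm_real, Real.norm_eq_abs, abs_of_pos (Real.exp_pos _)]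

theorem rep_norm {K a ℓ : ℝ} {g P : ℝ → ℂ} (h : RP K a ℓ g P) (hK : 0 ≤ K) {u0 u : ℝ}
    (h0 : a ≤ u0) (hu : a ≤ u) :
    ∃ r : ℝ, |r| ≤ K * (u - u0) ^ 2 ∧ ‖g u‖ = ‖g u0‖ * Real.exp ((P u0).re * (u - u0) + r) := by
  obtain ⟨R, hR, e⟩ := h.rep hK h0 hu
  refine ⟨R.re, (Complex.abs_re_le_norm R).trans hR, ?_⟩
  rw [e, norm_mul, Complex.norm_exp, Complex.add_re, Complex.re_mul_ofReal]

/-- the arithmetic of the exponents -/
theorem expo {K a η t ℓ x u : ℝ} (hK : 1 ≤ K) (ha : 1 / 2 ≤ a) (hη : 0 < η) (ht : 0 < t)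
    (htK : t * (16 * K) ≤ 1) (hℓ : 2 * a + η ≤ 2 * t * ℓ) (hx : -t ≤ x) (hu : 0 ≤ u) (hua : u ≤ a) :
    x * u / (2 * t) - u ^ 2 / (4 * t) ≤
      (x * (max x 0 + (2 * a + η)) / (2 * t) - (max x 0 + (2 * a + η)) ^ 2 / (4 * t)) +
        ℓ * (max x 0 + (2 * a + η) - a) - K * (max x 0 + (2 * a + η) - a) ^ 2 +
        (2 * K * (2 * a + η) ^ 2 + (2 * a + η) - ℓ * η / 2) := by
  obtain ⟨w, hw⟩ : ∃ w, w = 2 * a + η := ⟨_, rfl⟩
  rw [← hw] at hℓ ⊢
  have hw0 : 0 < w := by rw [hw]; linarith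
  have hwa : a ≤ w := by rw [hw]; linarith
  have hℓ0 : 0 < ℓ := by
    by_contra hneg
    push Not at hneg
    nlinarith [mul_nonpos_of_nonneg_of_nonpos (by linarith : (0 : ℝ) ≤ 2 * t) hneg]
  obtain ⟨q, hq⟩ : ∃ q, q = (4 * t)⁻¹ := ⟨_, rfl⟩
  have hq0 : 0 < q := by rw [hq]; positivity
  have hqt : q * (4 * t) = 1 := by rw [hq]; field_simp
  have e1 : ∀ z : ℝ, z / (4 * t) = z * q := by intro z; rw [hq, div_eq_mul_inv]
  have e2 : ∀ z : ℝ, z / (2 * t) = 2 * z * q := by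
    intro z
    rw [hq]
    field_simp
    ring
  rw [e1, e1, e2, e2]
  -- `w² q ≤ ℓ w / 2`
  have hwq : w ^ 2 * q ≤ ℓ * w / 2 := by
    have h1 : w * q ≤ ℓ / 2 := by
      have := mul_le_mul_of_nonneg_right hℓ hq0.le
      have e : 2 * t * ℓ * q = ℓ / 2 := by linear_combination (ℓ / 2) * hqt
      linarith
    nlinarith
  have hKq : 2 * K ≤ q := by
    have h1 : 16 * K * t ≤ q * (4 * t) := by rw [hqt]; linarith
    have h2 : 4 * K * (4 * t) ≤ q * (4 * t) := by linarith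
    have h3 : 4 * K ≤ q := le_of_mul_le_mul_right h2 (by positivity)
    linarith
  rcases le_or_gt 0 x with hx0 | hx0
  · rw [max_eq_left hx0]
    obtain ⟨p, hp⟩ : ∃ p, p = max (x - a) 0 := ⟨_, rfl⟩
    have hp0 : 0 ≤ p := by rw [hp]; exact le_max_right _ _
    have hpx : x - a ≤ p := by rw [hp]; exact le_max_left _ _
    have h1 : p ^ 2 ≤ (u - x) ^ 2 := by
      rw [hp]
      rcases le_or_gt (x - a) 0 with h | h
      · rw [max_eq_right h]
        nlinarith [sq_nonneg (u - x)]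
      · rw [max_eq_left h.le]
        nlinarith
    have h2 : (x + w - a) ^ 2 ≤ 2 * p ^ 2 + 2 * w ^ 2 := by
      have h3 : (x + w - a) ^ 2 ≤ (p + w) ^ 2 := by
        apply pow_le_pow_left₀ (by linarith) (by linarith)
      nlinarith [sq_nonneg (p - w)]
    have h4 : K * (x + w - a) ^ 2 ≤ K * (2 * p ^ 2 + 2 * w ^ 2) :=
      mul_le_mul_of_nonneg_left h2 (by linarith)
    have h5 : 2 * K * p ^ 2 ≤ q * (u - x) ^ 2 := by
      calc 2 * K * p ^ 2 ≤ q * p ^ 2 := mul_le_mul_of_nonneg_right hKq (sq_nonneg _)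
        _ ≤ q * (u - x) ^ 2 := mul_le_mul_of_nonneg_left h1 hq0.le
    have h6 : ℓ * (x + w - a) = ℓ * x + ℓ * w / 2 + ℓ * η / 2 := by rw [hw]; ring
    have h7 : 0 ≤ ℓ * x := by positivity
    nlinarith
  · rw [max_eq_right hx0.le, zero_add]
    have h1 : 2 * (x * u) * q ≤ 0 := by
      have : x * u ≤ 0 := mul_nonpos_of_nonpos_of_nonneg hx0.le hu
      nlinarith
    have h2 : 0 ≤ u ^ 2 * q := by positivity
    have h3 : - (w / 2) ≤ 2 * (x * w) * q := by
      have h4 : -t * (w * q) ≤ x * (w * q) := mul_le_mul_of_nonneg_right hx (by positivity)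
      have e : -t * (w * q) = - (w / 4) := by linear_combination (- w / 4) * hqt
      linarith
    have h5 : ℓ * (w - a) = ℓ * w / 2 + ℓ * η / 2 := by rw [hw]; ring
    have h6 : K * (w - a) ^ 2 ≤ K * w ^ 2 := by
      apply mul_le_mul_of_nonneg_left _ (by linarith)
      apply pow_le_pow_left₀ (by linarith) (by linarith)
    have h7 : 0 ≤ K * w ^ 2 := by positivity
    nlinarith

theorem lleft : S_LLEFT := by
  intro K a η hK ha hη
  refine ⟨1 / (16 * K), 2 * K * (2 * a + η) ^ 2 + (2 * a + η) + K, by positivity, ?_⟩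
  intro ℓ t g P hRP ht htK hℓP hℓ x hx c hc hcP u hu hua
  have hK0 : 0 ≤ K := by linarith
  have htK' : t * (16 * K) ≤ 1 := by
    rw [le_div_iff₀ (by positivity)] at htK
    exact htK
  -- step 1
  have step1 : ∀ v, a ≤ v → ‖ww t g x v‖ ≤ ‖ww t g x c‖ := by
    intro v hv
    obtain ⟨r, hr, e⟩ := rep_norm hRP hK0 hc hv
    rw [norm_ww, norm_ww, e]
    have h1 : Real.exp (x * v / (2 * t) - v ^ 2 / (4 * t)) *
        (‖g c‖ * Real.exp ((P c).re * (v - c) + r)) =
        Real.exp (x * v / (2 * t) - v ^ 2 / (4 * t) + ((P c).re * (v - c) + r)) * ‖g c‖ := by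
      rw [Real.exp_add (x * v / (2 * t) - v ^ 2 / (4 * t))]; ring
    rw [h1]
    apply mul_le_mul_of_nonneg_right _ (norm_nonneg _)
    apply Real.exp_le_exp.mpr
    rw [hcP]
    have h2 : x * v / (2 * t) - v ^ 2 / (4 * t) + ((c - x) / (2 * t) * (v - c) + r) =
        x * c / (2 * t) - c ^ 2 / (4 * t) - (v - c) ^ 2 / (4 * t) + r := by
      field_simp
      ring
    rw [h2]
    have h3 : K * (v - c) ^ 2 ≤ (v - c) ^ 2 / (4 * t) := by
      rw [le_div_iff₀ (by positivity)]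
      have : K * (4 * t) ≤ 1 := by nlinarith
      nlinarith [sq_nonneg (v - c)]
    have h4 := (abs_le.mp hr).2
    linarith
  set V := max x 0 + (2 * a + η) with hV
  have hVa : a ≤ V := by
    have := le_max_right x 0
    rw [hV]; linarith
  obtain ⟨r, hr, e⟩ := rep_norm hRP hK0 (le_refl a) hVa
  have hexp := expo hK ha hη ht htK' hℓ hx hu hua
  rw [← hV] at hexp
  refine le_trans ?_ (mul_le_mul_of_nonneg_left (step1 V hVa) (Real.exp_pos _).le)
  rw [norm_ww, norm_ww, e, ← hℓP]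
  have hleft := hRP.left u hu hua
  have hKe : K ≤ Real.exp K := by
    have := Real.add_one_le_exp K
    linarith
  calc Real.exp (x * u / (2 * t) - u ^ 2 / (4 * t)) * ‖g u‖
      ≤ Real.exp (x * u / (2 * t) - u ^ 2 / (4 * t)) * (Real.exp K * ‖g a‖) := by
        apply mul_le_mul_of_nonneg_left _ (Real.exp_pos _).le
        exact hleft.trans (mul_le_mul_of_nonneg_right hKe (norm_nonneg _))
    _ = Real.exp (x * u / (2 * t) - u ^ 2 / (4 * t) + K) * ‖g a‖ := by
        rw [Real.exp_add]; ring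
    _ ≤ Real.exp ((2 * K * (2 * a + η) ^ 2 + (2 * a + η) + K - ℓ * η / 2) +
          ((x * V / (2 * t) - V ^ 2 / (4 * t)) + (ℓ * (V - a) + r))) * ‖g a‖ := by
        apply mul_le_mul_of_nonneg_right _ (norm_nonneg _)
        apply Real.exp_le_exp.mpr
        have h4 := (abs_le.mp hr).1
        linarith
    _ = _ := by
        rw [Real.exp_add, Real.exp_add (x * V / (2 * t) - V ^ 2 / (4 * t))]
        ring

end Pool.Agent.W12.HF
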